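import Mathlib
import Pool.Agent.Q200.Transfer
import Pool.Agent.Q200.CycBase

/-!
# A theory of low VC-density (hence dp-minimal) that is not weakly VC-minimal

The theory of infinitely many dense cyclic orders (an equivalence relation with infinitely many
classes and a dense cyclic order on each class) has low VC-density, is dp-minimal, and is not
weakly VC-minimal, even after naming finitely many parameters.
-/

universe u v w

namespace Pool.Agent.Results.MP_670fc8_lc.LowVCNotWeaklyVCMinimal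

open FirstOrder FirstOrder.Language Q200 Q200.Cyc Filter

/-! ## The definitions of the problem -/

section Defs

variable (L : FirstOrder.Language.{v, w}) (M : Type u) [L.Structure M]

/-- The set `φ(M; b)` of all tuples `a` with `M ⊨ φ(a; b)`. -/
def inst {L : FirstOrder.Language.{v, w}} (M : Type u) [L.Structure M] {α β : Type}
    (φ : L.Formula (α ⊕ β)) (b : β → M) : Set (α → M) :=
  {a | φ.Realize (Sum.elim a b)}

/-- The number of complete `φ`-types over the finite set `B` of parameters: the number of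
subsets `{b ∈ B : φ(a; b)}` of `B`, for `a` ranging over the tuples of `M`. -/
noncomputable def numTypes {L : FirstOrder.Language.{v, w}} (M : Type u) [L.Structure M]
    {α β : Type} (φ : L.Formula (α ⊕ β)) (B : Finset (β → M)) : ℕ :=
  Set.ncard {p : Set (β → M) | ∃ a : α → M, p = {b | b ∈ B ∧ a ∈ inst M φ b}}

/-- `π*_φ(n)`: the maximal number of `φ`-types over a set of `n` parameters. -/
noncomputable def piStar {L : FirstOrder.Language.{v, w}} (M : Type u) [L.Structure M]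
    {α β : Type} (φ : L.Formula (α ⊕ β)) (n : ℕ) : ℕ :=
  sSup {t : ℕ | ∃ B : Finset (β → M), B.card = n ∧ t = numTypes M φ B}

/-- Low VC-density: for every partitioned formula `φ(x; y)` with finite tuples `x`, `y` and every
real `r > |x|` we have `π*_φ(n) = O(n ^ r)`, that is, the VC-density of `φ` is at most `|x|`. -/
def LowVCDensity : Prop :=
  ∀ (α β : Type) [Finite α] [Finite β] (φ : L.Formula (α ⊕ β)) (r : ℝ), (Nat.card α : ℝ) < r →
    (fun n : ℕ => (piStar M φ n : ℝ)) =O[atTop] (fun n : ℕ => (n : ℝ) ^ r)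

/-- Dp-minimality: there are no formulas `φ(x; y)`, `ψ(x; z)` in a single variable `x` and
sequences `b i`, `c j` of parameters such that for all `i j` the set consisting of `φ(x; b i)`,
`ψ(x; c j)`, `¬ φ(x; b k)` for `k ≠ i` and `¬ ψ(x; c l)` for `l ≠ j` is consistent (that is,
finitely satisfiable in `M`). -/
def DpMinimal : Prop :=
  ¬ ∃ (β γ : Type) (_ : Finite β) (_ : Finite γ) (φ : L.Formula (Fin 1 ⊕ β))
      (ψ : L.Formula (Fin 1 ⊕ γ)) (b : ℕ → β → M) (c : ℕ → γ → M),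
    ∀ i j s : ℕ, ∃ a : Fin 1 → M, a ∈ inst M φ (b i) ∧ a ∈ inst M ψ (c j) ∧
      (∀ k < s, k ≠ i → a ∉ inst M φ (b k)) ∧ (∀ l < s, l ≠ j → a ∉ inst M ψ (c l))

variable {L}

/-- The subset of `M` defined by the formula `ψ(x; c, d)`. -/
def pinst {k n : ℕ} (d : Fin k → M) (ψ : L.Formula (Fin 1 ⊕ (Fin n ⊕ Fin k))) (c : Fin n → M) :
    Set M :=
  {x | ψ.Realize (Sum.elim (fun _ => x) (Sum.elim c d))}

/-- Two sets form an independent family. -/
def IndepPair {X : Type u} (A B : Set X) : Prop :=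
  (A ∩ B).Nonempty ∧ (A \ B).Nonempty ∧ (B \ A).Nonempty ∧ (Aᶜ ∩ Bᶜ).Nonempty

/-- The formula `ψ(x; z, d)`, with `d` fixed, has independence dimension at most `1`: no two
instances `ψ(x; c, d)`, `ψ(x; c', d)` form an independent family. -/
def IndDimLeOne {k n : ℕ} (d : Fin k → M) (ψ : L.Formula (Fin 1 ⊕ (Fin n ⊕ Fin k))) : Prop :=
  ∀ c c' : Fin n → M, ¬ IndepPair (pinst M d ψ c) (pinst M d ψ c')

/-- Finite Boolean combinations of members of a family of sets. -/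
inductive BoolComb {X : Type u} (F : Set (Set X)) : Set X → Prop
  | basic {S : Set X} : S ∈ F → BoolComb F S
  | univ : BoolComb F Set.univ
  | compl {S : Set X} : BoolComb F S → BoolComb F Sᶜ
  | inter {S S' : Set X} : BoolComb F S → BoolComb F S' → BoolComb F (S ∩ S')

variable (L)

/-- Weak VC-minimality after naming the finite tuple `d` of parameters: for every formula
`φ(x; y, d)` and every `b` the set defined by `φ(x; b, d)` is a Boolean combination of finitely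
many instances `ψ(x; c, d)` of formulas `ψ(x; z, d)` of independence dimension at most `1`.
For the empty tuple `d` this is weak VC-minimality. -/
def WeaklyVCMinimalOver {k : ℕ} (d : Fin k → M) : Prop :=
  ∀ (n : ℕ) (φ : L.Formula (Fin 1 ⊕ (Fin n ⊕ Fin k))) (b : Fin n → M),
    BoolComb {S : Set M | ∃ (m : ℕ) (ψ : L.Formula (Fin 1 ⊕ (Fin m ⊕ Fin k))) (c : Fin m → M),
      IndDimLeOne M d ψ ∧ S = pinst M d ψ c} (pinst M d φ b)

end Defs

/-! ## Low VC-density implies dp-minimality -/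

section DP

variable {L : FirstOrder.Language.{v, w}} {M : Type u} [L.Structure M]

theorem numTypes_le {α β : Type} (φ : L.Formula (α ⊕ β)) (B : Finset (β → M)) :
    numTypes M φ B ≤ 2 ^ B.card := by
  classical
  have h : {p : Set (β → M) | ∃ a : α → M, p = {b | b ∈ B ∧ a ∈ inst M φ b}} ⊆
      ((B.powerset.image (fun s : Finset (β → M) => (s : Set (β → M))) :
        Finset (Set (β → M))) : Set (Set (β → M))) := by
    rintro p ⟨a, rfl⟩
    rw [Finset.coe_image]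
    refine ⟨B.filter (fun b => a ∈ inst M φ b), ?_, ?_⟩
    · simp only [Finset.coe_powerset, Set.mem_preimage, Set.mem_powerset_iff, Finset.coe_filter]
      exact fun x hx => hx.1
    · ext b
      simp
  refine (Set.ncard_le_ncard h (Finset.finite_toSet _)).trans ?_
  rw [Set.ncard_coe_finset]
  exact Finset.card_image_le.trans (Finset.card_powerset B).le

theorem piStar_bdd {α β : Type} (φ : L.Formula (α ⊕ β)) (n : ℕ) :
    BddAbove {t : ℕ | ∃ B : Finset (β → M), B.card = n ∧ t = numTypes M φ B} := by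
  refine ⟨2 ^ n, ?_⟩
  rintro t ⟨B, hB, rfl⟩
  rw [← hB]
  exact numTypes_le φ B

theorem le_piStar {α β : Type} (φ : L.Formula (α ⊕ β)) (B : Finset (β → M)) :
    numTypes M φ B ≤ piStar M φ B.card :=
  le_csSup (piStar_bdd φ B.card) ⟨B, rfl, rfl⟩

/-- The formula `(u = u' ∧ φ(x; y)) ∨ (u ≠ u' ∧ ψ(x; z))`. -/
def combine {β γ : Type} (φ : L.Formula (Fin 1 ⊕ β)) (ψ : L.Formula (Fin 1 ⊕ γ)) :
    L.Formula (Fin 1 ⊕ ((β ⊕ γ) ⊕ Bool)) :=
  ((Term.equal (Term.var (Sum.inr (Sum.inr true))) (Term.var (Sum.inr (Sum.inr false)))) ⊓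
    φ.relabel (Sum.map id (fun i => Sum.inl (Sum.inl i)))) ⊔
  ((Term.equal (Term.var (Sum.inr (Sum.inr true))) (Term.var (Sum.inr (Sum.inr false)))).not ⊓
    ψ.relabel (Sum.map id (fun i => Sum.inl (Sum.inr i))))

theorem realize_combine {β γ : Type} (φ : L.Formula (Fin 1 ⊕ β)) (ψ : L.Formula (Fin 1 ⊕ γ))
    (a : Fin 1 → M) (b : β → M) (c : γ → M) (t : Bool → M) :
    a ∈ inst M (combine φ ψ) (Sum.elim (Sum.elim b c) t) ↔
      (t true = t false ∧ a ∈ inst M φ b) ∨ (t true ≠ t false ∧ a ∈ inst M ψ c) := by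
  have e1 : Sum.elim a (Sum.elim (Sum.elim b c) t) ∘ (Sum.map id (fun i => Sum.inl (Sum.inl i)) :
      Fin 1 ⊕ β → Fin 1 ⊕ ((β ⊕ γ) ⊕ Bool)) = Sum.elim a b := by
    funext i
    rcases i with i | i <;> rfl
  have e2 : Sum.elim a (Sum.elim (Sum.elim b c) t) ∘ (Sum.map id (fun i => Sum.inl (Sum.inr i)) :
      Fin 1 ⊕ γ → Fin 1 ⊕ ((β ⊕ γ) ⊕ Bool)) = Sum.elim a c := by
    funext i
    rcases i with i | i <;> rfl
  simp only [inst, combine, Set.mem_ofPred_eq, Formula.realize_sup, Formula.realize_inf,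
    Formula.realize_not, Formula.realize_equal, Formula.realize_relabel, e1, e2,
    Term.realize_var, Sum.elim_inr]

theorem sq_le_piStar {β γ : Type} (φ : L.Formula (Fin 1 ⊕ β)) (ψ : L.Formula (Fin 1 ⊕ γ))
    (b : ℕ → β → M) (c : ℕ → γ → M)
    (h : ∀ i j s : ℕ, ∃ a : Fin 1 → M, a ∈ inst M φ (b i) ∧ a ∈ inst M ψ (c j) ∧
      (∀ k < s, k ≠ i → a ∉ inst M φ (b k)) ∧ (∀ l < s, l ≠ j → a ∉ inst M ψ (c l))) (s : ℕ) :
    s * s ≤ piStar M (combine φ ψ) (2 * s) := by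
  classical
  have hbinj : ∀ i j, b i = b j → i = j := by
    intro i j hij
    by_contra hne
    obtain ⟨a, h1, -, h3, -⟩ := h i 0 (j + 1)
    exact h3 j (by omega) (fun hh => hne hh.symm) (hij ▸ h1)
  have hcinj : ∀ i j, c i = c j → i = j := by
    intro i j hij
    by_contra hne
    obtain ⟨a, -, h1, -, h3⟩ := h 0 i (j + 1)
    exact h3 j (by omega) (fun hh => hne hh.symm) (hij ▸ h1)
  have hb01 : b 0 ≠ b 1 := fun hh => by simpa using hbinj 0 1 hh
  obtain ⟨z, hz⟩ := Function.ne_iff.1 hb01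
  set t1 : Bool → M := fun _ => b 0 z with ht1
  set t2 : Bool → M := fun t => if t then b 0 z else b 1 z with ht2
  have ht1' : t1 true = t1 false := rfl
  have ht2' : t2 true ≠ t2 false := by simpa [ht2] using hz
  set P : Fin s → ((β ⊕ γ) ⊕ Bool → M) := fun i => Sum.elim (Sum.elim (b i) (c 0)) t1 with hP
  set Q : Fin s → ((β ⊕ γ) ⊕ Bool → M) := fun j => Sum.elim (Sum.elim (b 0) (c j)) t2 with hQ
  have hPinj : Function.Injective P := by
    intro i j hij
    refine Fin.ext (hbinj _ _ ?_)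
    funext x
    exact congrFun hij (Sum.inl (Sum.inl x))
  have hQinj : Function.Injective Q := by
    intro i j hij
    refine Fin.ext (hcinj _ _ ?_)
    funext x
    exact congrFun hij (Sum.inl (Sum.inr x))
  have hPQ : ∀ i j, P i ≠ Q j := by
    intro i j hij
    apply ht2'
    have h1 := congrFun hij (Sum.inr true)
    have h2 := congrFun hij (Sum.inr false)
    simp only [hP, hQ, Sum.elim_inr] at h1 h2
    rw [← h1, ← h2]
  set B : Finset ((β ⊕ γ) ⊕ Bool → M) := Finset.univ.image P ∪ Finset.univ.image Q with hB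
  have hBcard : B.card = 2 * s := by
    rw [hB, Finset.card_union_of_disjoint, Finset.card_image_of_injective _ hPinj,
      Finset.card_image_of_injective _ hQinj]
    · simp [two_mul]
    · rw [Finset.disjoint_left]
      rintro x hx hx'
      obtain ⟨i, -, rfl⟩ := Finset.mem_image.1 hx
      obtain ⟨j, -, hj⟩ := Finset.mem_image.1 hx'
      exact hPQ i j hj.symm
  choose a ha1 ha2 ha3 ha4 using fun (p : Fin s × Fin s) => h p.1 p.2 s
  have memP : ∀ p i, a p ∈ inst M (combine φ ψ) (P i) ↔ p.1 = i := by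
    intro p i
    rw [hP, realize_combine]
    constructor
    · rintro (⟨-, h1⟩ | ⟨h1, -⟩)
      · by_contra hne
        exact ha3 p i i.2 (fun hh => hne (Fin.ext hh.symm)) h1
      · exact absurd ht1' h1
    · rintro rfl
      exact Or.inl ⟨ht1', ha1 p⟩
  have memQ : ∀ p j, a p ∈ inst M (combine φ ψ) (Q j) ↔ p.2 = j := by
    intro p j
    rw [hQ, realize_combine]
    constructor
    · rintro (⟨h1, -⟩ | ⟨-, h1⟩)
      · exact absurd h1 ht2'
      · by_contra hne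
        exact ha4 p j j.2 (fun hh => hne (Fin.ext hh.symm)) h1
    · rintro rfl
      exact Or.inr ⟨ht2', ha2 p⟩
  rw [← hBcard]
  refine le_trans ?_ (le_piStar _ B)
  set g : Fin s × Fin s → Set ((β ⊕ γ) ⊕ Bool → M) := fun p =>
    {x | x ∈ B ∧ a p ∈ inst M (combine φ ψ) x} with hg
  have hginj : Function.Injective g := by
    intro p q hpq
    have h1 : P p.1 ∈ g p :=
      ⟨Finset.mem_union_left _ (Finset.mem_image_of_mem _ (Finset.mem_univ _)), (memP p _).2 rfl⟩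
    have h2 : Q p.2 ∈ g p :=
      ⟨Finset.mem_union_right _ (Finset.mem_image_of_mem _ (Finset.mem_univ _)), (memQ p _).2 rfl⟩
    rw [hpq] at h1 h2
    exact Prod.ext ((memP q _).1 h1.2).symm ((memQ q _).1 h2.2).symm
  have hfin : {p : Set ((β ⊕ γ) ⊕ Bool → M) |
      ∃ a : Fin 1 → M, p = {b | b ∈ B ∧ a ∈ inst M (combine φ ψ) b}}.Finite := by
    refine ((B.powerset.image (fun s : Finset ((β ⊕ γ) ⊕ Bool → M) =>
      (s : Set ((β ⊕ γ) ⊕ Bool → M)))).finite_toSet).subset ?_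
    rintro p ⟨a, rfl⟩
    rw [Finset.coe_image]
    refine ⟨B.filter (fun b => a ∈ inst M (combine φ ψ) b), ?_, ?_⟩
    · simp only [Finset.coe_powerset, Set.mem_preimage, Set.mem_powerset_iff, Finset.coe_filter]
      exact fun x hx => hx.1
    · ext b
      simp
  have h3 : (Set.range g).ncard = s * s := by
    rw [← Set.image_univ, Set.ncard_image_of_injective _ hginj, Set.ncard_univ]
    simp
  rw [← h3]
  refine Set.ncard_le_ncard ?_ hfin
  rintro _ ⟨p, rfl⟩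
  exact ⟨a p, rfl⟩

theorem dpMinimal_of_lowVCDensity (h : LowVCDensity L M) : DpMinimal L M := by
  rintro ⟨β, γ, _, _, φ, ψ, b, c, hpat⟩
  have h1 := h (Fin 1) ((β ⊕ γ) ⊕ Bool) (combine φ ψ) (3 / 2) (by simp; norm_num)
  have h2 : Tendsto (fun s : ℕ => 2 * s) atTop atTop :=
    tendsto_atTop_mono (fun s => by change s ≤ 2 * s; omega) tendsto_id
  have h3 := h1.comp_tendsto h2
  obtain ⟨K, hK⟩ := h3.bound
  rw [eventually_atTop] at hK
  obtain ⟨s0, hs0⟩ := hK
  -- choose a large square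
  obtain ⟨n, hn⟩ := exists_nat_gt (max (s0 : ℝ) (max 1 (K * 2 ^ (3 / 2 : ℝ))))
  have hn1 : (s0 : ℝ) < n := (le_max_left _ _).trans_lt hn
  have hn2 : (1 : ℝ) < n := ((le_max_left _ _).trans (le_max_right _ _)).trans_lt hn
  have hn3 : K * 2 ^ (3 / 2 : ℝ) < n := ((le_max_right _ _).trans (le_max_right _ _)).trans_lt hn
  have hn1' : s0 < n := by exact_mod_cast hn1
  have hs : s0 ≤ n ^ 2 := by nlinarith
  have h4 := hs0 (n ^ 2) hs
  have h5 : ((n ^ 2 * n ^ 2 : ℕ) : ℝ) ≤ (piStar M (combine φ ψ) (2 * n ^ 2) : ℝ) := by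
    exact_mod_cast sq_le_piStar φ ψ b c hpat (n ^ 2)
  simp only [Function.comp, Real.norm_natCast] at h4
  have h6 : ‖((2 * n ^ 2 : ℕ) : ℝ) ^ (3 / 2 : ℝ)‖ = 2 ^ (3 / 2 : ℝ) * (n : ℝ) ^ 3 := by
    rw [Real.norm_of_nonneg (by positivity)]
    push_cast
    rw [Real.mul_rpow (by norm_num) (by positivity), ← Real.rpow_natCast_mul (by positivity)]
    norm_num
  rw [h6] at h4
  have h7 : ((n ^ 2 * n ^ 2 : ℕ) : ℝ) ≤ K * (2 ^ (3 / 2 : ℝ) * (n : ℝ) ^ 3) := h5.trans h4
  have h8 : ((n ^ 2 * n ^ 2 : ℕ) : ℝ) = n * (n : ℝ) ^ 3 := by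
    push_cast
    ring
  rw [h8, ← mul_assoc] at h7
  have h9 : (0 : ℝ) < (n : ℝ) ^ 3 := by positivity
  have := le_of_mul_le_mul_right h7 h9
  linarith

end DP

/-! ## Low VC-density of the theory -/

section VC

/-- The patterns of `φ(a; w i)`, `i < k`, for varying `a` lie in a set of at most `K` elements. -/
def FewPat {L : FirstOrder.Language.{v, w}} (M : Type u) [L.Structure M] {α β : Type}
    (φ : L.Formula (α ⊕ β)) (k K : ℕ) (w : Fin k × β → M) : Prop :=
  ∃ D : {D : Finset (Fin k → Bool) // D.card ≤ K}, ∀ a : α → M, ∃ δ : {δ // δ ∈ D.1},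
    ∀ i : Fin k, (φ.Realize (Sum.elim w a ∘
      (Sum.elim Sum.inr (fun j => Sum.inl (i, j)) : α ⊕ β → (Fin k × β) ⊕ α)) ↔ δ.1 i = true)

theorem fewPat_M0 {α β : Type} [Finite α] [Finite β] (φ : Lc.Formula (α ⊕ β)) (k : ℕ)
    (w : Fin k × β → M0) : FewPat M0 φ k (bd (Nat.card α) (k * Nat.card β)) w := by
  classical
  have := Fintype.ofFinite β
  have e := Finite.equivFin α
  have hex := exists_codes (Nat.card α) (Fin k × β) w
  have hcard : Fintype.card (Fin k × β) = k * Nat.card β := by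
    simp [Nat.card_eq_fintype_card]
  rw [hcard] at hex
  obtain ⟨f, hf⟩ := hex
  have hrep : ∀ c : Fin (bd (Nat.card α) (k * Nat.card β)), ∃ r : Fin (Nat.card α) → M0,
      (∃ x, f x = c) → f r = c := by
    intro c
    by_cases h : ∃ x, f x = c
    · obtain ⟨x, hx⟩ := h
      exact ⟨x, fun _ => hx⟩
    · exact ⟨fun _ => (0, 0), fun h' => absurd h' h⟩
  choose r hr using hrep
  set g : (Fin (Nat.card α) → M0) → (Fin k → Bool) := fun a i =>
    decide (φ.Realize (Sum.elim w (a ∘ e) ∘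
      (Sum.elim Sum.inr (fun j => Sum.inl (i, j)) : α ⊕ β → (Fin k × β) ⊕ α))) with hg
  refine ⟨⟨Finset.univ.image (fun c => g (r c)), ?_⟩, ?_⟩
  · exact Finset.card_image_le.trans (by simp)
  · intro a
    refine ⟨⟨g (r (f (a ∘ e.symm))), Finset.mem_image.2 ⟨_, Finset.mem_univ _, rfl⟩⟩, ?_⟩
    intro i
    have h1 : f (a ∘ e.symm) = f (r (f (a ∘ e.symm))) := (hr _ ⟨_, rfl⟩).symm
    have h2 := hf _ _ h1
    rw [hg]
    simp only [decide_eq_true_eq]
    refine formula_iff φ ?_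
    have h3 : ∀ b : Fin (Nat.card α) → M0, Sum.elim w (b ∘ e) ∘
        (Sum.elim Sum.inr (fun j => Sum.inl (i, j)) : α ⊕ β → (Fin k × β) ⊕ α) =
        Sum.elim w b ∘ (Sum.elim (fun x => Sum.inr (e x)) (fun j => Sum.inl (i, j)) :
          α ⊕ β → (Fin k × β) ⊕ Fin (Nat.card α)) := by
      intro b
      funext x
      rcases x with x | x <;> rfl
    have h4 : a = (a ∘ e.symm) ∘ e := by
      funext x
      simp
    rw [h4, h3]
    simp only [Function.comp_assoc, Equiv.symm_comp_self, Function.comp_id]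
    rw [h3]
    exact h2.comp _

theorem fewPat_transfer {L : FirstOrder.Language.{v, w}} {M : Type*} {N : Type u} [L.Structure M]
    [L.Structure N] {α β : Type} [Finite α] [Finite β] (φ : L.Formula (α ⊕ β)) (k K : ℕ)
    (e : M ≅[L] N) (h : ∀ w, FewPat M φ k K w) : ∀ w, FewPat N φ k K w := by
  refine (Tr.forall_iff (L := L) ?_ e).1 h
  refine Tr.finEx fun D => ?_
  refine Tr.alls (P := fun v => ∃ δ : {δ // δ ∈ D.1}, ∀ i : Fin k, (φ.Realize (v ∘
      (Sum.elim Sum.inr (fun j => Sum.inl (i, j)) : α ⊕ β → (Fin k × β) ⊕ α)) ↔ δ.1 i = true))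
      (Q := fun v => ∃ δ : {δ // δ ∈ D.1}, ∀ i : Fin k, (φ.Realize (v ∘
      (Sum.elim Sum.inr (fun j => Sum.inl (i, j)) : α ⊕ β → (Fin k × β) ⊕ α)) ↔ δ.1 i = true)) ?_
  refine Tr.finEx fun δ => Tr.finAll fun i => ?_
  exact Tr.iff (Tr.formula φ _) (Tr.const _)

theorem numTypes_le_of_fewPat {L : FirstOrder.Language.{v, w}} {N : Type u} [L.Structure N]
    {α β : Type} (φ : L.Formula (α ⊕ β)) (k K : ℕ) (h : ∀ w, FewPat N φ k K w)
    (B : Finset (β → N)) (hB : B.card = k) : numTypes N φ B ≤ K := by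
  classical
  obtain ⟨e⟩ : Nonempty (B ≃ Fin k) := ⟨Finset.equivFinOfCardEq hB⟩
  obtain ⟨⟨D, hD⟩, h2⟩ := h (fun p => (e.symm p.1).1 p.2)
  have h3 : {p : Set (β → N) | ∃ a : α → N, p = {b | b ∈ B ∧ a ∈ inst N φ b}} ⊆
      ((D.image (fun δ => {b : β → N | ∃ h : b ∈ B, δ (e ⟨b, h⟩) = true}) :
        Finset (Set (β → N))) : Set (Set (β → N))) := by
    rintro p ⟨a, rfl⟩
    rw [Finset.coe_image]
    obtain ⟨⟨δ, hδ⟩, h4⟩ := h2 a
    refine ⟨δ, hδ, ?_⟩
    ext b
    constructor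
    · rintro ⟨h5, h6⟩
      refine ⟨h5, ?_⟩
      have h7 := (h4 (e ⟨b, h5⟩)).2 h6
      simp only [inst, Set.mem_ofPred_eq]
      convert h7 using 1
      funext x
      rcases x with x | x
      · rfl
      · simp
    · rintro ⟨h5, h6⟩
      refine ⟨h5, ?_⟩
      refine (h4 (e ⟨b, h5⟩)).1 ?_
      simp only [inst, Set.mem_ofPred_eq] at h6
      convert h6 using 1
      funext x
      rcases x with x | x
      · rfl
      · simp
  refine (Set.ncard_le_ncard h3 (Finset.finite_toSet _)).trans ?_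
  rw [Set.ncard_coe_finset]
  exact Finset.card_image_le.trans hD

theorem lowVCDensity {N : Type u} [Lc.Structure N] (e : M0 ≅[Lc] N) : LowVCDensity Lc N := by
  intro α β _ _ φ r hr
  have h1 : ∀ k, piStar N φ k ≤ bd (Nat.card α) (k * Nat.card β) := by
    intro k
    rw [piStar]
    refine csSup_le' ?_
    rintro t ⟨B, hB, rfl⟩
    exact numTypes_le_of_fewPat φ k _
      (fewPat_transfer φ k _ e (fun w => fewPat_M0 φ k w)) B hB
  set m := Nat.card α with hm
  set q := Nat.card β with hq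
  have h2 : ∀ k : ℕ, 1 ≤ k → (piStar N φ k : ℝ) ≤ ((2 * (q + m) + 1 : ℕ) : ℝ) ^ m * (k : ℝ) ^ m := by
    intro k hk
    have h3 : piStar N φ k ≤ ((2 * (q + m) + 1) * k) ^ m := by
      refine (h1 k).trans ((bd_le m _).trans (Nat.pow_le_pow_left ?_ _))
      nlinarith
    have h4 : (piStar N φ k : ℝ) ≤ ((((2 * (q + m) + 1) * k) ^ m : ℕ) : ℝ) := by exact_mod_cast h3
    refine h4.trans (le_of_eq ?_)
    push_cast
    rw [mul_pow]
  refine Asymptotics.IsBigO.of_bound (((2 * (q + m) + 1 : ℕ) : ℝ) ^ m) ?_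
  filter_upwards [eventually_ge_atTop 1] with k hk
  have hk1 : (1 : ℝ) ≤ k := by exact_mod_cast hk
  rw [Real.norm_natCast, Real.norm_of_nonneg (by positivity)]
  refine (h2 k hk).trans ?_
  refine mul_le_mul_of_nonneg_left ?_ (by positivity)
  rw [← Real.rpow_natCast]
  exact Real.rpow_le_rpow_of_exponent_le hk1 hr.le

end VC

/-! ## Instances of formulas of independence dimension at most one -/

section Trace

/-- The shift of the class `κ` by `t`. -/
def shift (κ : ℕ) (t : ℚ) (x : M0) : M0 := if x.1 = κ then (x.1, x.2 + t) else x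

theorem shift_fst (κ : ℕ) (t : ℚ) (x : M0) : (shift κ t x).1 = x.1 := by
  unfold shift
  split_ifs <;> rfl

theorem shift_of_eq (κ : ℕ) (t : ℚ) (x : M0) (h : x.1 = κ) : (shift κ t x) = (κ, x.2 + t) := by
  unfold shift
  rw [if_pos h, h]

theorem shift_of_ne (κ : ℕ) (t : ℚ) (x : M0) (h : x.1 ≠ κ) : (shift κ t x) = x := by
  unfold shift
  rw [if_neg h]

theorem cyc_shift (x y z t : ℚ) : cyc (x + t) (y + t) (z + t) ↔ cyc x y z := by
  unfold cyc
  simp

theorem same_shift {ι : Type*} (κ : ℕ) (t : ℚ) (v : ι → M0) : Same v (shift κ t ∘ v) := by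
  refine ⟨?_, ?_, ?_⟩
  · intro i j
    simp only [Function.comp]
    constructor
    · intro h
      rw [h]
    · intro h
      have h1 : (v i).1 = (v j).1 := by
        have := congrArg Prod.fst h
        rwa [shift_fst, shift_fst] at this
      by_cases hi : (v i).1 = κ
      · rw [shift_of_eq _ _ _ hi, shift_of_eq _ _ _ (h1 ▸ hi)] at h
        have h2 := congrArg Prod.snd h
        simp only at h2
        exact Prod.ext h1 (by linarith)
      · rwa [shift_of_ne _ _ _ hi, shift_of_ne _ _ _ (h1 ▸ hi)] at h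
  · intro i j
    simp only [Function.comp, shift_fst]
  · intro i j k
    simp only [Function.comp, C, shift_fst]
    refine and_congr_right fun h1 => and_congr_right fun h2 => ?_
    by_cases hi : (v i).1 = κ
    · rw [shift_of_eq _ _ _ hi, shift_of_eq _ _ _ (h1 ▸ hi), shift_of_eq _ _ _ (h2 ▸ h1 ▸ hi)]
      exact (cyc_shift _ _ _ _).symm
    · rw [shift_of_ne _ _ _ hi, shift_of_ne _ _ _ (h1 ▸ hi), shift_of_ne _ _ _ (h2 ▸ h1 ▸ hi)]

theorem same_point {ι : Type*} (v : ι → M0) (x y : M0) (hx : ∀ i, v i ≠ x) (hy : ∀ i, v i ≠ y)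
    (hcl : x.1 = y.1) (hC : ∀ i j, C (v i) (v j) x ↔ C (v i) (v j) y) :
    Same (ext v x) (ext v y) := by
  have nl : ∀ x y : M0, ¬ C x y y := fun x y hc => not_C_left _ _ (C_rot.1 hc)
  have nm : ∀ x y : M0, ¬ C x y x := fun x y hc => not_C_left _ _ (C_rot.1 (C_rot.1 hc))
  refine ⟨?_, ?_, ?_⟩
  · rintro (_ | j) (_ | k)
    · simp
    · simp [(hx k).symm, (hy k).symm]
    · simp [(hx j), (hy j)]
    · simp
  · rintro (_ | j) (_ | k)
    · simp
    · simp [hcl]
    · simp [hcl]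
    · simp
  · rintro (_ | j) (_ | k) (_ | l)
    · simp [not_C_left]
    · simp [not_C_left]
    · simp [nm]
    · simp only [ext_none, ext_some]
      rw [C_rot, hC k l, ← C_rot]
    · simp [nl]
    · simp only [ext_none, ext_some]
      rw [C_rot, C_rot, hC l j, C_rot, C_rot]
    · simp only [ext_none, ext_some]
      exact hC j k
    · simp

variable {k n : ℕ} (d : Fin k → M0) (ψ : Lc.Formula (Fin 1 ⊕ (Fin n ⊕ Fin k))) (c : Fin n → M0)

theorem pinst_iff_of_point (x y : M0) (hx : ∀ i, c i ≠ x) (hy : ∀ i, c i ≠ y)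
    (hdx : ∀ i, (d i).1 ≠ x.1) (hcl : x.1 = y.1)
    (hC : ∀ i j, C (c i) (c j) x ↔ C (c i) (c j) y) :
    x ∈ pinst M0 d ψ c ↔ y ∈ pinst M0 d ψ c := by
  have hdy : ∀ i, (d i).1 ≠ y.1 := fun i => hcl ▸ hdx i
  have hC1 : ∀ z : M0, (∀ i, (d i).1 ≠ z.1) → ∀ i j, ¬ C (Sum.elim c d (Sum.inr i)) j z := by
    intro z hz i j hc
    exact hz i (hc.1.trans hc.2.1)
  have hC2 : ∀ z : M0, (∀ i, (d i).1 ≠ z.1) → ∀ i j, ¬ C j (Sum.elim c d (Sum.inr i)) z := by
    intro z hz i j hc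
    exact hz i hc.2.1
  have hs : Same (ext (Sum.elim c d) x) (ext (Sum.elim c d) y) := by
    refine same_point _ _ _ ?_ ?_ hcl ?_
    · rintro (i | i)
      · exact hx i
      · exact fun h => hdx i (by rw [← h]; rfl)
    · rintro (i | i)
      · exact hy i
      · exact fun h => hdy i (by rw [← h]; rfl)
    · rintro (i | i) (j | j)
      · exact hC i j
      · exact iff_of_false (hC2 x hdx _ _) (hC2 y hdy _ _)
      · exact iff_of_false (hC1 x hdx _ _) (hC1 y hdy _ _)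
      · exact iff_of_false (hC1 x hdx _ _) (hC1 y hdy _ _)
  refine formula_iff ψ ?_
  have e : ∀ x : M0, Sum.elim (fun _ => x) (Sum.elim c d) =
      ext (Sum.elim c d) x ∘ (Sum.elim (fun _ => none) some :
        Fin 1 ⊕ (Fin n ⊕ Fin k) → Option (Fin n ⊕ Fin k)) := by
    intro x
    funext i
    rcases i with i | i <;> rfl
  rw [e, e]
  exact hs.comp _

theorem pinst_shift (κ : ℕ) (t : ℚ) (hd : ∀ i, (d i).1 ≠ κ) (x : M0) :
    shift κ t x ∈ pinst M0 d ψ (shift κ t ∘ c) ↔ x ∈ pinst M0 d ψ c := by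
  have h := formula_iff ψ (same_shift κ t (Sum.elim (fun _ : Fin 1 => x) (Sum.elim c d)))
  have e : shift κ t ∘ (Sum.elim (fun _ : Fin 1 => x) (Sum.elim c d)) =
      Sum.elim (fun _ : Fin 1 => shift κ t x) (Sum.elim (shift κ t ∘ c) d) := by
    funext i
    rcases i with i | i | i
    · rfl
    · rfl
    · simp [shift_of_ne _ _ _ (hd i)]
  rw [e] at h
  exact h.symm

theorem iterate_sub {A : Set ℚ} {t : ℚ} (h : ∀ u ∈ A, u - t ∈ A) (n : ℕ) :
    ∀ u ∈ A, u - n * t ∈ A := by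
  induction n with
  | zero => intro u hu; simpa using hu
  | succ n ih =>
    intro u hu
    have := h _ (ih u hu)
    push_cast
    have e : u - (n + 1) * t = u - n * t - t := by ring
    rw [e]
    exact this

theorem iterate_add {A : Set ℚ} {t : ℚ} (h : ∀ u ∈ A, u + t ∈ A) (n : ℕ) :
    ∀ u ∈ A, u + n * t ∈ A := by
  have := iterate_sub (A := A) (t := -t) (by simpa using h) n
  intro u hu
  have h2 := this u hu
  have e : u + n * t = u - n * -t := by ring
  rw [e]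
  exact h2

/-- If an instance of `ψ` splits a class free of the parameters `d`, outside the parameters `c`,
then `ψ` has independence dimension at least two. -/
theorem not_indDim_of_split (κ : ℕ) (hd : ∀ i, (d i).1 ≠ κ) (x y : ℚ)
    (hx : (κ, x) ∈ pinst M0 d ψ c) (hy : (κ, y) ∉ pinst M0 d ψ c)
    (hx' : ∀ i, c i ≠ (κ, x)) (hy' : ∀ i, c i ≠ (κ, y)) : ¬ IndDimLeOne M0 d ψ := by
  classical
  intro hind
  -- the finitely many bad rationals
  set P : Finset ℚ := (Finset.univ.filter (fun i => (c i).1 = κ)).image (fun i => (c i).2) with hP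
  have hPmem : ∀ i, (c i).1 = κ → (c i).2 ∈ P := fun i hi =>
    Finset.mem_image.2 ⟨i, by simp [hi], rfl⟩
  have hxP : x ∉ P := by
    intro h
    obtain ⟨i, hi, hi2⟩ := Finset.mem_image.1 h
    exact hx' i (Prod.ext (Finset.mem_filter.1 hi).2 hi2)
  have hyP : y ∉ P := by
    intro h
    obtain ⟨i, hi, hi2⟩ := Finset.mem_image.1 h
    exact hy' i (Prod.ext (Finset.mem_filter.1 hi).2 hi2)
  have hcP : ∀ z, z ∉ P → ∀ i, c i ≠ (κ, z) := by
    intro z hz i hi
    exact hz (by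
      have := hPmem i (by rw [hi])
      rwa [hi] at this)
  -- points with the same cut in `P`, or both outside, behave alike
  have hsame : ∀ z z', z ∉ P → z' ∉ P → (∀ p ∈ P, ∀ q ∈ P, cyc p q z ↔ cyc p q z') →
      ((κ, z) ∈ pinst M0 d ψ c ↔ (κ, z') ∈ pinst M0 d ψ c) := by
    intro z z' hz hz' h
    refine pinst_iff_of_point d ψ c _ _ (hcP z hz) (hcP z' hz') hd rfl ?_
    intro i j
    unfold C
    simp only
    constructor
    · rintro ⟨h1, h2, h3⟩
      exact ⟨h1, h2, (h _ (hPmem i (h1.trans h2)) _ (hPmem j h2)).1 h3⟩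
    · rintro ⟨h1, h2, h3⟩
      exact ⟨h1, h2, (h _ (hPmem i (h1.trans h2)) _ (hPmem j h2)).2 h3⟩
  set A : Set ℚ := {z | (κ, z) ∈ pinst M0 d ψ c} with hA
  -- a small shift
  obtain ⟨x1, hx1, hx1P⟩ : ∃ x1, x1 < x ∧ ∀ p ∈ P, x1 ≤ p → x ≤ p := by
    obtain ⟨q, hq1, hq2⟩ := exists_after (-x) (P.image (fun p => -p))
    refine ⟨-q, by linarith, fun p hp hle => ?_⟩
    by_contra hlt
    push Not at hlt
    have := hq2 (-p) (Finset.mem_image_of_mem _ hp) (by linarith)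
    linarith
  obtain ⟨y1, hy1, hy1P⟩ : ∃ y1, y1 < y ∧ ∀ p ∈ P, y1 ≤ p → y ≤ p := by
    obtain ⟨q, hq1, hq2⟩ := exists_after (-y) (P.image (fun p => -p))
    refine ⟨-q, by linarith, fun p hp hle => ?_⟩
    by_contra hlt
    push Not at hlt
    have := hq2 (-p) (Finset.mem_image_of_mem _ hp) (by linarith)
    linarith
  set t : ℚ := min (x - x1) (y - y1) with ht
  have htpos : 0 < t := lt_min (by linarith) (by linarith)
  have htx : x1 ≤ x - t := by have := min_le_left (x - x1) (y - y1); linarith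
  have hty : y1 ≤ y - t := by have := min_le_right (x - x1) (y - y1); linarith
  have hcut : ∀ z z1 : ℚ, z1 < z → z ∉ P → (∀ p ∈ P, z1 ≤ p → z ≤ p) → z1 ≤ z - t →
      (z ∈ A ↔ z - t ∈ A) := by
    intro z z1 h1 h2 h3 h4
    have h5 : z - t ∉ P := fun h => by
      have := h3 _ h h4
      linarith
    have h6 : ∀ p ∈ P, (p < z ↔ p < z - t) := by
      intro p hp
      constructor
      · intro hlt
        by_contra hge
        push Not at hge
        have := h3 p hp (h4.trans hge)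
        linarith
      · intro hlt
        linarith
    have h7 : ∀ p ∈ P, (z < p ↔ z - t < p) := by
      intro p hp
      have e1 : p ≠ z := fun h => h2 (h ▸ hp)
      have e2 : p ≠ z - t := fun h => h5 (h ▸ hp)
      have := h6 p hp
      constructor
      · intro hlt
        linarith
      · intro hlt
        by_contra hge
        push Not at hge
        have h8 : p < z := lt_of_le_of_ne hge e1
        have := this.1 h8
        linarith
    refine hsame z (z - t) h2 h5 ?_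
    intro p hp q hq
    unfold cyc
    rw [h6 q hq, h7 p hp]
  have hxt : x - t ∈ A := (hcut x x1 hx1 hxP hx1P htx).1 hx
  have hyt : y - t ∉ A := fun h => hy ((hcut y y1 hy1 hyP hy1P hty).2 h)
  -- the shifted instance
  set c' := shift κ t ∘ c with hc'
  have hA' : ∀ z, (κ, z) ∈ pinst M0 d ψ c' ↔ z - t ∈ A := by
    intro z
    have := pinst_shift d ψ c κ t hd (κ, z - t)
    rw [shift_of_eq κ t (κ, z - t) rfl] at this
    simp only [sub_add_cancel] at this
    exact this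
  -- far away points behave alike
  obtain ⟨R, hR⟩ : ∃ R : ℚ, ∀ p ∈ P, -R < p ∧ p < R := by
    refine ⟨(∑ p ∈ P, |p|) + 1, fun p hp => ?_⟩
    have h1 : |p| ≤ ∑ p ∈ P, |p| := Finset.single_le_sum (f := fun p => |p|)
      (fun q _ => abs_nonneg q) hp
    have h2 := abs_lt.1 (show |p| < (∑ p ∈ P, |p|) + 1 by linarith)
    exact h2
  have hfar : ∀ z z', z < -R → R < z' → (z ∈ A ↔ z' ∈ A) := by
    intro z z' h1 h2
    refine hsame z z' (fun h => ?_) (fun h => ?_) ?_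
    · have := (hR _ h).1
      linarith
    · have := (hR _ h).2
      linarith
    · intro p hp q hq
      have h3 := hR p hp
      have h4 := hR q hq
      unfold cyc
      constructor
      · rintro (⟨h5, h6⟩ | ⟨h5, h6⟩ | ⟨h5, h6⟩)
        · linarith
        · linarith
        · exact Or.inl ⟨h6, by linarith⟩
      · rintro (⟨h5, h6⟩ | ⟨h5, h6⟩ | ⟨h5, h6⟩)
        · exact Or.inr (Or.inr ⟨by linarith, h5⟩)
        · linarith
        · linarith
  have harch : ∀ u B : ℚ, ∃ m : ℕ, B < u + m * t := by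
    intro u B
    obtain ⟨m, hm⟩ := exists_nat_gt ((B - u) / t)
    refine ⟨m, ?_⟩
    rw [div_lt_iff₀ htpos] at hm
    linarith
  refine hind c c' ⟨⟨(κ, x), hx, (hA' x).2 hxt⟩, ?_, ?_, ⟨(κ, y), hy, fun h => hyt ((hA' y).1 h)⟩⟩
  · by_contra hemp
    rw [Set.not_nonempty_iff_eq_empty] at hemp
    have hsub : ∀ u ∈ A, u - t ∈ A := by
      intro u hu
      by_contra hut
      have : (κ, u) ∈ pinst M0 d ψ c \ pinst M0 d ψ c' := ⟨hu, fun h => hut ((hA' u).1 h)⟩
      rw [hemp] at this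
      exact this
    obtain ⟨m, hm⟩ := harch (-x) R
    have h1 : x - m * t ∈ A := iterate_sub hsub m x hx
    obtain ⟨m', hm'⟩ := harch y R
    have h2 : y + m' * t ∈ A := (hfar _ _ (by linarith) hm').1 h1
    have h3 := iterate_sub hsub m' _ h2
    rw [add_sub_cancel_right] at h3
    exact hy h3
  · by_contra hemp
    rw [Set.not_nonempty_iff_eq_empty] at hemp
    have hadd : ∀ u ∈ A, u + t ∈ A := by
      intro u hu
      by_contra hut
      have : (κ, u + t) ∈ pinst M0 d ψ c' \ pinst M0 d ψ c :=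
        ⟨(hA' _).2 (by simpa using hu), hut⟩
      rw [hemp] at this
      exact this
    obtain ⟨m, hm⟩ := harch x R
    have h1 : x + m * t ∈ A := iterate_add hadd m x hx
    obtain ⟨m', hm'⟩ := harch (-y) R
    have h2 : y - m' * t ∈ A := (hfar _ _ (by linarith) hm).2 h1
    have h3 := iterate_add hadd m' _ h2
    rw [sub_add_cancel] at h3
    exact hy h3

end Trace

/-! ## Transfer to all models and the main theorem -/

section Final

/-- The equivalence relation in an arbitrary structure. -/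
def EE {X : Type*} [Lc.Structure X] (x y : X) : Prop := Structure.RelMap symE ![x, y]

/-- The cyclic order in an arbitrary structure. -/
def CC {X : Type*} [Lc.Structure X] (x y z : X) : Prop := Structure.RelMap symC ![x, y, z]

theorem EE_M0 (x y : M0) : EE x y ↔ x.1 = y.1 := Iff.rfl

theorem CC_M0 (x y z : M0) : CC x y z ↔ C x y z := Iff.rfl

theorem realize_symC {X : Type*} [Lc.Structure X] {W : Type v} (i j k : W) (v : W → X) :
    (symC.formula ![Term.var i, Term.var j, Term.var k]).Realize v ↔ CC (v i) (v j) (v k) := by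
  rw [Formula.realize_rel]
  have : (fun a => Term.realize v ((![Term.var i, Term.var j, Term.var k] :
      Fin 3 → Lc.Term W) a)) = ![v i, v j, v k] := by
    funext a
    fin_cases a <;> rfl
  rw [this]
  rfl

section Ind

variable {W : Type} {k n : ℕ} (ψ : Lc.Formula (Fin 1 ⊕ (Fin n ⊕ Fin k))) (δ : Fin k → W)

/-- Variables for the first instance. -/
def f1 : Fin 1 ⊕ (Fin n ⊕ Fin k) → (W ⊕ (Fin n ⊕ Fin n)) ⊕ PUnit.{1} :=
  Sum.elim (fun _ => Sum.inr PUnit.unit)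
    (Sum.elim (fun i => Sum.inl (Sum.inr (Sum.inl i))) (fun i => Sum.inl (Sum.inl (δ i))))

/-- Variables for the second instance. -/
def f2 : Fin 1 ⊕ (Fin n ⊕ Fin k) → (W ⊕ (Fin n ⊕ Fin n)) ⊕ PUnit.{1} :=
  Sum.elim (fun _ => Sum.inr PUnit.unit)
    (Sum.elim (fun i => Sum.inl (Sum.inr (Sum.inr i))) (fun i => Sum.inl (Sum.inl (δ i))))

theorem conv1 {X : Type*} (v : W → X) (a : Fin n ⊕ Fin n → X) (x : PUnit.{1} → X) :
    Sum.elim (Sum.elim v a) x ∘ f1 δ =
      Sum.elim (fun _ => x PUnit.unit) (Sum.elim (a ∘ Sum.inl) (v ∘ δ)) := by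
  funext i
  rcases i with i | i | i <;> rfl

theorem conv2 {X : Type*} (v : W → X) (a : Fin n ⊕ Fin n → X) (x : PUnit.{1} → X) :
    Sum.elim (Sum.elim v a) x ∘ f2 δ =
      Sum.elim (fun _ => x PUnit.unit) (Sum.elim (a ∘ Sum.inr) (v ∘ δ)) := by
  funext i
  rcases i with i | i | i <;> rfl

theorem indDim_iff {X : Type u} [Lc.Structure X] (v : W → X) : IndDimLeOne X (v ∘ δ) ψ ↔
    ∀ a : Fin n ⊕ Fin n → X, ¬ ((∃ x : PUnit.{1} → X,
        ψ.Realize (Sum.elim (Sum.elim v a) x ∘ f1 δ) ∧ ψ.Realize (Sum.elim (Sum.elim v a) x ∘ f2 δ)) ∧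
      (∃ x : PUnit.{1} → X,
        ψ.Realize (Sum.elim (Sum.elim v a) x ∘ f1 δ) ∧ ¬ ψ.Realize (Sum.elim (Sum.elim v a) x ∘ f2 δ)) ∧
      (∃ x : PUnit.{1} → X,
        ψ.Realize (Sum.elim (Sum.elim v a) x ∘ f2 δ) ∧ ¬ ψ.Realize (Sum.elim (Sum.elim v a) x ∘ f1 δ)) ∧
      (∃ x : PUnit.{1} → X,
        ¬ ψ.Realize (Sum.elim (Sum.elim v a) x ∘ f1 δ) ∧
        ¬ ψ.Realize (Sum.elim (Sum.elim v a) x ∘ f2 δ))) := by
  have hx : ∀ (Q : X → Prop), (∃ x : PUnit.{1} → X, Q (x PUnit.unit)) ↔ ∃ x, Q x := by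
    intro Q
    constructor
    · rintro ⟨x, hx⟩
      exact ⟨_, hx⟩
    · rintro ⟨x, hx⟩
      exact ⟨fun _ => x, hx⟩
  simp only [conv1, conv2]
  constructor
  · intro h a ha
    refine h (a ∘ Sum.inl) (a ∘ Sum.inr) ?_
    obtain ⟨⟨x1, h1⟩, ⟨x2, h2⟩, ⟨x3, h3⟩, ⟨x4, h4⟩⟩ := ha
    exact ⟨⟨_, h1⟩, ⟨_, h2⟩, ⟨_, h3⟩, ⟨_, h4⟩⟩
  · intro h c c' ha
    refine h (Sum.elim c c') ?_
    obtain ⟨⟨x1, h1⟩, ⟨x2, h2⟩, ⟨x3, h3⟩, ⟨x4, h4⟩⟩ := ha
    exact ⟨⟨fun _ => x1, h1⟩, ⟨fun _ => x2, h2⟩, ⟨fun _ => x3, h3⟩, ⟨fun _ => x4, h4⟩⟩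

end Ind

variable {M : Type v} {N : Type u} [Lc.Structure M] [Lc.Structure N]

theorem tr_EE {W : Type} (i j : W) :
    Tr Lc (fun v : W → M => EE (v i) (v j)) (fun v : W → N => EE (v i) (v j)) :=
  ⟨symE.formula₂ (Term.var i) (Term.var j), fun v => by
    rw [Formula.realize_rel₂]; rfl, fun v => by rw [Formula.realize_rel₂]; rfl⟩

theorem tr_CC {W : Type} (i j k : W) :
    Tr Lc (fun v : W → M => CC (v i) (v j) (v k)) (fun v : W → N => CC (v i) (v j) (v k)) :=
  ⟨_, realize_symC i j k, realize_symC i j k⟩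

theorem tr_ind {W : Type} {k n : ℕ} (ψ : Lc.Formula (Fin 1 ⊕ (Fin n ⊕ Fin k))) (δ : Fin k → W) :
    Tr Lc (fun v : W → M => IndDimLeOne M (v ∘ δ) ψ)
      (fun v : W → N => IndDimLeOne N (v ∘ δ) ψ) := by
  have h1 : Tr Lc (fun v : (W ⊕ (Fin n ⊕ Fin n)) ⊕ PUnit.{1} → M => ψ.Realize (v ∘ f1 δ))
      (fun v : (W ⊕ (Fin n ⊕ Fin n)) ⊕ PUnit.{1} → N => ψ.Realize (v ∘ f1 δ)) :=
    Tr.formula ψ (f1 δ)
  have h2 : Tr Lc (fun v : (W ⊕ (Fin n ⊕ Fin n)) ⊕ PUnit.{1} → M => ψ.Realize (v ∘ f2 δ))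
      (fun v : (W ⊕ (Fin n ⊕ Fin n)) ⊕ PUnit.{1} → N => ψ.Realize (v ∘ f2 δ)) :=
    Tr.formula ψ (f2 δ)
  have h := Tr.alls (Tr.not (Tr.and (Tr.exs (Tr.and h1 h2)) (Tr.and (Tr.exs (Tr.and h1 h2.not))
    (Tr.and (Tr.exs (Tr.and h2 h1.not)) (Tr.exs (Tr.and h1.not h2.not))))))
  exact h.congr (indDim_iff ψ δ) (indDim_iff ψ δ)

/-- Index type for the splitting statement. -/
abbrev WW (k n : ℕ) : Type := Fin k ⊕ (Fin n ⊕ (Unit ⊕ (Fin (n + 1) ⊕ Fin (n + 1))))

/-- The statement that a formula of independence dimension at most one does not split a class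
outside of `d` into two parts with at least `n + 1` elements. -/
def NoSplit (X : Type u) [Lc.Structure X] {k n : ℕ} (ψ : Lc.Formula (Fin 1 ⊕ (Fin n ⊕ Fin k)))
    (v : WW k n → X) : Prop :=
  ((∀ i : Fin k, ¬ EE (v (Sum.inr (Sum.inr (Sum.inl ())))) (v (Sum.inl i))) ∧
  (∀ i : Fin (n + 1), EE (v (Sum.inr (Sum.inr (Sum.inl ()))))
    (v (Sum.inr (Sum.inr (Sum.inr (Sum.inl i)))))) ∧
  (∀ i : Fin (n + 1), EE (v (Sum.inr (Sum.inr (Sum.inl ()))))
    (v (Sum.inr (Sum.inr (Sum.inr (Sum.inr i)))))) ∧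
  (∀ p : {p : Fin (n + 1) × Fin (n + 1) // p.1 ≠ p.2},
    ¬ v (Sum.inr (Sum.inr (Sum.inr (Sum.inl p.1.1)))) =
      v (Sum.inr (Sum.inr (Sum.inr (Sum.inl p.1.2))))) ∧
  (∀ p : {p : Fin (n + 1) × Fin (n + 1) // p.1 ≠ p.2},
    ¬ v (Sum.inr (Sum.inr (Sum.inr (Sum.inr p.1.1)))) =
      v (Sum.inr (Sum.inr (Sum.inr (Sum.inr p.1.2))))) ∧
  (∀ i : Fin (n + 1), ψ.Realize (v ∘ (Sum.elim
    (fun _ => Sum.inr (Sum.inr (Sum.inr (Sum.inl i))))
    (Sum.elim (fun j => Sum.inr (Sum.inl j)) Sum.inl) : Fin 1 ⊕ (Fin n ⊕ Fin k) → WW k n))) ∧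
  (∀ i : Fin (n + 1), ¬ ψ.Realize (v ∘ (Sum.elim
    (fun _ => Sum.inr (Sum.inr (Sum.inr (Sum.inr i))))
    (Sum.elim (fun j => Sum.inr (Sum.inl j)) Sum.inl) : Fin 1 ⊕ (Fin n ⊕ Fin k) → WW k n)))) →
  ¬ IndDimLeOne X (v ∘ Sum.inl) ψ

theorem tr_noSplit {k n : ℕ} (ψ : Lc.Formula (Fin 1 ⊕ (Fin n ⊕ Fin k))) :
    Tr Lc (NoSplit M ψ) (NoSplit N ψ) := by
  refine Tr.imp (Tr.and (Tr.finAll fun i => (tr_EE _ _).not) (Tr.and (Tr.finAll fun i => tr_EE _ _)
    (Tr.and (Tr.finAll fun i => tr_EE _ _) (Tr.and (Tr.finAll fun i => (Tr.eq _ _).not)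
    (Tr.and (Tr.finAll fun i => (Tr.eq _ _).not) (Tr.and (Tr.finAll fun i => Tr.formula ψ _)
    (Tr.finAll fun i => (Tr.formula ψ _).not))))))) (tr_ind ψ _).not

theorem exists_fresh {n : ℕ} (c : Fin n → M0) (x : Fin (n + 1) → M0)
    (hx : ∀ p : {p : Fin (n + 1) × Fin (n + 1) // p.1 ≠ p.2}, ¬ x p.1.1 = x p.1.2) :
    ∃ i, ∀ j, c j ≠ x i := by
  by_contra hcon
  push Not at hcon
  choose f hf using hcon
  have hinj : Function.Injective f := by
    intro i j hij
    by_contra hne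
    exact hx ⟨(i, j), hne⟩ (by simp only; rw [← hf i, ← hf j, hij])
  have := Fintype.card_le_of_injective f hinj
  simp at this

theorem noSplit_M0 {k n : ℕ} (ψ : Lc.Formula (Fin 1 ⊕ (Fin n ⊕ Fin k))) (v : WW k n → M0) :
    NoSplit M0 ψ v := by
  rintro ⟨h1, h2, h3, h4, h5, h6, h7⟩
  obtain ⟨i, hi⟩ := exists_fresh (fun j => v (Sum.inr (Sum.inl j)))
    (fun i => v (Sum.inr (Sum.inr (Sum.inr (Sum.inl i))))) h4
  obtain ⟨j, hj⟩ := exists_fresh (fun j => v (Sum.inr (Sum.inl j)))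
    (fun i => v (Sum.inr (Sum.inr (Sum.inr (Sum.inr i))))) h5
  have hi2 : v (Sum.inr (Sum.inr (Sum.inr (Sum.inl i)))) =
      ((v (Sum.inr (Sum.inr (Sum.inl ())))).1, (v (Sum.inr (Sum.inr (Sum.inr (Sum.inl i))))).2) :=
    Prod.ext ((EE_M0 _ _).1 (h2 i)).symm rfl
  have hj2 : v (Sum.inr (Sum.inr (Sum.inr (Sum.inr j)))) =
      ((v (Sum.inr (Sum.inr (Sum.inl ())))).1, (v (Sum.inr (Sum.inr (Sum.inr (Sum.inr j))))).2) :=
    Prod.ext ((EE_M0 _ _).1 (h3 j)).symm rfl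
  have e : ∀ w : WW k n, (v ∘ (Sum.elim (fun _ => w)
      (Sum.elim (fun j => Sum.inr (Sum.inl j)) Sum.inl) : Fin 1 ⊕ (Fin n ⊕ Fin k) → WW k n)) =
      Sum.elim (fun _ => v w) (Sum.elim (fun j => v (Sum.inr (Sum.inl j))) (v ∘ Sum.inl)) := by
    intro w
    funext x
    rcases x with x | x | x <;> rfl
  have h6' := h6 i
  have h7' := h7 j
  rw [e, hi2] at h6'
  rw [e, hj2] at h7'
  rw [hi2] at hi
  rw [hj2] at hj
  exact not_indDim_of_split (v ∘ Sum.inl) ψ (fun j => v (Sum.inr (Sum.inl j)))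
    (v (Sum.inr (Sum.inr (Sum.inl ())))).1
    (fun i hh => h1 i ((EE_M0 _ _).2 hh.symm)) _ _ h6' h7' hi hj

/-! ### Elementary facts about the structure -/

theorem transfer_sentence {W : Type} [Finite W] {P : (W → M) → Prop} {Q : (W → N) → Prop}
    (e : M ≅[Lc] N) (h : Tr Lc P Q) (hP : ∀ v, P v) : ∀ v, Q v :=
  (h.forall_iff e).1 hP

theorem fresh_class (e : M0 ≅[Lc] N) {k : ℕ} (d : Fin k → N) :
    ∃ b1 b2 : N, ¬ b1 = b2 ∧ EE b1 b2 ∧ ∀ i, ¬ EE b1 (d i) := by
  have key : ∀ d : Fin k → M0, ∃ b : Fin 2 → M0, ¬ b 0 = b 1 ∧ EE (b 0) (b 1) ∧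
      ∀ i, ¬ EE (b 0) (d i) := by
    intro d
    obtain ⟨m, hm⟩ := Infinite.exists_notMem_finset (Finset.univ.image (fun j => (d j).1))
    refine ⟨![(m, 0), (m, 1)], by simp, rfl, fun i h => ?_⟩
    exact hm (Finset.mem_image.2 ⟨i, Finset.mem_univ _, ((EE_M0 _ _).1 h).symm⟩)
  have htr : Tr Lc (fun d : Fin k → M0 => ∃ b : Fin 2 → M0, ¬ b 0 = b 1 ∧ EE (b 0) (b 1) ∧
      ∀ i, ¬ EE (b 0) (d i)) (fun d : Fin k → N => ∃ b : Fin 2 → N, ¬ b 0 = b 1 ∧
      EE (b 0) (b 1) ∧ ∀ i, ¬ EE (b 0) (d i)) := by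
    exact (Tr.exs (Tr.and (Tr.eq (Sum.inr 0) (Sum.inr 1)).not (Tr.and
      (tr_EE (Sum.inr 0) (Sum.inr 1))
      (Tr.finAll fun i => (tr_EE (Sum.inr 0) (Sum.inl i)).not)))).congr
        (fun _ => Iff.rfl) (fun _ => Iff.rfl)
  obtain ⟨b, hb⟩ := transfer_sentence e htr key d
  exact ⟨b 0, b 1, hb⟩

theorem dense_arc (e : M0 ≅[Lc] N) (s : ℕ) (b : Fin 2 → N) (hb : ¬ b 0 = b 1)
    (hE : EE (b 0) (b 1)) : ∃ x : Fin s → N, (∀ p : {p : Fin s × Fin s // p.1 ≠ p.2},
      ¬ x p.1.1 = x p.1.2) ∧ ∀ i, CC (b 0) (x i) (b 1) := by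
  have key : ∀ b : Fin 2 → M0, ((¬ b 0 = b 1) ∧ EE (b 0) (b 1)) →
      ∃ x : Fin s → M0, (∀ p : {p : Fin s × Fin s // p.1 ≠ p.2}, ¬ x p.1.1 = x p.1.2) ∧
        ∀ i, CC (b 0) (x i) (b 1) := by
    rintro b ⟨h1, h2⟩
    rw [EE_M0] at h2
    have h3 : (b 0).2 ≠ (b 1).2 := fun h => h1 (Prod.ext h2 h)
    rcases lt_or_gt_of_ne h3 with hlt | hgt
    · obtain ⟨f, hf, hf2⟩ : ∃ f : Fin s → ℚ, Function.Injective f ∧
          ∀ i, (b 0).2 < f i ∧ f i < (b 1).2 := by
        have hinf : (Set.Ioo (b 0).2 (b 1).2).Infinite := Set.Ioo_infinite hlt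
        exact ⟨fun i => hinf.natEmbedding _ i, fun i j hij => by
          have := (hinf.natEmbedding _).injective (Subtype.ext hij)
          exact Fin.ext this, fun i => (hinf.natEmbedding _ (i : ℕ)).2⟩
      refine ⟨fun i => ((b 0).1, f i), fun p hp => p.2 (hf (congrArg Prod.snd hp)), fun i => ?_⟩
      exact ⟨rfl, h2, Or.inl (hf2 i)⟩
    · refine ⟨fun i => ((b 0).1, (b 0).2 + (i + 1)), fun p hp => p.2 ?_, fun i => ?_⟩
      · have := congrArg Prod.snd hp
        simp only at this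
        refine Fin.ext ?_
        have h4 : ((p.1.1 : ℕ) : ℚ) = ((p.1.2 : ℕ) : ℚ) := by linarith
        exact_mod_cast h4
      · refine ⟨rfl, h2, Or.inr (Or.inr ⟨hgt, ?_⟩)⟩
        have : (0 : ℚ) ≤ ((i : ℕ) : ℚ) := by positivity
        change (b 0).2 < (b 0).2 + (((i : ℕ) : ℚ) + 1)
        linarith
  have htr : Tr Lc (fun b : Fin 2 → M0 => ((¬ b 0 = b 1) ∧ EE (b 0) (b 1)) →
      ∃ x : Fin s → M0, (∀ p : {p : Fin s × Fin s // p.1 ≠ p.2}, ¬ x p.1.1 = x p.1.2) ∧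
        ∀ i, CC (b 0) (x i) (b 1))
      (fun b : Fin 2 → N => ((¬ b 0 = b 1) ∧ EE (b 0) (b 1)) →
      ∃ x : Fin s → N, (∀ p : {p : Fin s × Fin s // p.1 ≠ p.2}, ¬ x p.1.1 = x p.1.2) ∧
        ∀ i, CC (b 0) (x i) (b 1)) := by
    refine Tr.imp (Tr.and (Tr.eq _ _).not (tr_EE _ _)) ?_
    exact (Tr.exs (Tr.and (Tr.finAll (ι := {p : Fin s × Fin s // p.1 ≠ p.2})
      fun p => (Tr.eq (Sum.inr p.1.1) (Sum.inr p.1.2)).not)
      (Tr.finAll (ι := Fin s) fun i => tr_CC (Sum.inl 0) (Sum.inr i) (Sum.inl 1)))).congr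
        (fun _ => Iff.rfl) (fun _ => Iff.rfl)
  exact transfer_sentence e htr key b ⟨hb, hE⟩

theorem arc_facts (e : M0 ≅[Lc] N) (b : Fin 3 → N) :
    (CC (b 0) (b 2) (b 1) → EE (b 0) (b 2)) ∧ (EE (b 0) (b 1) → EE (b 1) (b 0)) ∧
    (EE (b 0) (b 1) → CC (b 1) (b 2) (b 0) → EE (b 0) (b 2)) ∧
    (CC (b 1) (b 2) (b 0) → ¬ CC (b 0) (b 2) (b 1)) := by
  have key : ∀ b : Fin 3 → M0, (CC (b 0) (b 2) (b 1) → EE (b 0) (b 2)) ∧
      (EE (b 0) (b 1) → EE (b 1) (b 0)) ∧
      (EE (b 0) (b 1) → CC (b 1) (b 2) (b 0) → EE (b 0) (b 2)) ∧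
      (CC (b 1) (b 2) (b 0) → ¬ CC (b 0) (b 2) (b 1)) := by
    intro b
    refine ⟨fun h => h.1, fun h => ((EE_M0 _ _).1 h).symm,
      fun h h' => ((EE_M0 _ _).1 h).trans h'.1, fun h h' => ?_⟩
    have h1 : cyc (b 1).2 (b 2).2 (b 0).2 := h.2.2
    have h2 : cyc (b 0).2 (b 2).2 (b 1).2 := h'.2.2
    unfold cyc at h1 h2
    grind
  have htr : Tr Lc (fun b : Fin 3 → M0 => (CC (b 0) (b 2) (b 1) → EE (b 0) (b 2)) ∧
      (EE (b 0) (b 1) → EE (b 1) (b 0)) ∧
      (EE (b 0) (b 1) → CC (b 1) (b 2) (b 0) → EE (b 0) (b 2)) ∧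
      (CC (b 1) (b 2) (b 0) → ¬ CC (b 0) (b 2) (b 1)))
      (fun b : Fin 3 → N => (CC (b 0) (b 2) (b 1) → EE (b 0) (b 2)) ∧
      (EE (b 0) (b 1) → EE (b 1) (b 0)) ∧
      (EE (b 0) (b 1) → CC (b 1) (b 2) (b 0) → EE (b 0) (b 2)) ∧
      (CC (b 1) (b 2) (b 0) → ¬ CC (b 0) (b 2) (b 1))) :=
    Tr.and (Tr.imp (tr_CC _ _ _) (tr_EE _ _)) (Tr.and (Tr.imp (tr_EE _ _) (tr_EE _ _))
      (Tr.and (Tr.imp (tr_EE _ _) (Tr.imp (tr_CC _ _ _) (tr_EE _ _)))
        (Tr.imp (tr_CC _ _ _) (tr_CC _ _ _).not)))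
  exact transfer_sentence e htr key b

/-! ### Failure of weak VC-minimality -/

/-- The formula `C(y₀, x, y₁)`. -/
def arcFormula (k : ℕ) : Lc.Formula (Fin 1 ⊕ (Fin 2 ⊕ Fin k)) :=
  symC.formula ![Term.var (Sum.inr (Sum.inl 0)), Term.var (Sum.inl 0),
    Term.var (Sum.inr (Sum.inl 1))]

theorem mem_arc {k : ℕ} (d : Fin k → N) (b : Fin 2 → N) (x : N) :
    x ∈ pinst N d (arcFormula k) b ↔ CC (b 0) x (b 1) :=
  realize_symC _ _ _ _

theorem finite_or_cofinite (e : M0 ≅[Lc] N) {k n : ℕ} (d : Fin k → N)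
    (ψ : Lc.Formula (Fin 1 ⊕ (Fin n ⊕ Fin k))) (c : Fin n → N) (hψ : IndDimLeOne N d ψ) (b : N)
    (hb : ∀ i, ¬ EE b (d i)) :
    (pinst N d ψ c ∩ {x | EE b x}).Finite ∨ ((pinst N d ψ c)ᶜ ∩ {x | EE b x}).Finite := by
  by_contra hcon
  push Not at hcon
  obtain ⟨h1, h2⟩ := hcon
  have h1' : (pinst N d ψ c ∩ {x | EE b x}).Infinite := h1
  have h2' : ((pinst N d ψ c)ᶜ ∩ {x | EE b x}).Infinite := h2
  have h := transfer_sentence e (tr_noSplit ψ) (noSplit_M0 ψ)
    (Sum.elim d (Sum.elim c (Sum.elim (fun _ => b) (Sum.elim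
      (fun i : Fin (n + 1) => ((h1'.natEmbedding _ (i : ℕ) : N)))
      (fun i : Fin (n + 1) => ((h2'.natEmbedding _ (i : ℕ) : N)))))))
  have conv : ∀ (v : WW k n → N) (w : WW k n), (v ∘ (Sum.elim (fun _ => w)
      (Sum.elim (fun j => Sum.inr (Sum.inl j)) Sum.inl) : Fin 1 ⊕ (Fin n ⊕ Fin k) → WW k n)) =
      Sum.elim (fun _ => v w) (Sum.elim (fun j => v (Sum.inr (Sum.inl j))) (v ∘ Sum.inl)) := by
    intro v w
    funext x
    rcases x with x | x | x <;> rfl
  refine h ⟨?_, ?_, ?_, ?_, ?_, ?_, ?_⟩ hψ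
  · exact hb
  · intro i
    exact (h1'.natEmbedding _ (i : ℕ)).2.2
  · intro i
    exact (h2'.natEmbedding _ (i : ℕ)).2.2
  · intro p hp
    exact p.2 (Fin.ext ((h1'.natEmbedding _).injective (Subtype.ext hp)))
  · intro p hp
    exact p.2 (Fin.ext ((h2'.natEmbedding _).injective (Subtype.ext hp)))
  · intro i
    rw [conv]
    exact (h1'.natEmbedding _ (i : ℕ)).2.1
  · intro i
    rw [conv]
    exact (h2'.natEmbedding _ (i : ℕ)).2.1

theorem infinite_of_arcs (e : M0 ≅[Lc] N) (b : Fin 2 → N) (hb : ¬ b 0 = b 1)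
    (hE : EE (b 0) (b 1)) : {x : N | CC (b 0) x (b 1)}.Infinite := by
  intro hfin
  obtain ⟨x, hx1, hx2⟩ := dense_arc e (hfin.toFinset.card + 1) b hb hE
  have hinj : Function.Injective (fun i => (⟨x i, by
      rw [Set.Finite.mem_toFinset]
      exact hx2 i⟩ : hfin.toFinset)) := by
    intro i j hij
    by_contra hne
    exact hx1 ⟨(i, j), hne⟩ (congrArg Subtype.val hij)
  have := Fintype.card_le_of_injective _ hinj
  simp at this

theorem not_weaklyVCMinimalOver (e : M0 ≅[Lc] N) {k : ℕ} (d : Fin k → N) :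
    ¬ WeaklyVCMinimalOver Lc N d := by
  intro hW
  obtain ⟨b1, b2, hne, hE, hfree⟩ := fresh_class e d
  have h := hW 2 (arcFormula k) ![b1, b2]
  have key : ∀ S : Set N, BoolComb {S : Set N | ∃ (m : ℕ)
      (ψ : Lc.Formula (Fin 1 ⊕ (Fin m ⊕ Fin k))) (c : Fin m → N),
      IndDimLeOne N d ψ ∧ S = pinst N d ψ c} S →
      (S ∩ {x | EE b1 x}).Finite ∨ (Sᶜ ∩ {x | EE b1 x}).Finite := by
    intro S hS
    induction hS with
    | basic hS =>
      obtain ⟨m, ψ, c, h1, rfl⟩ := hS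
      exact finite_or_cofinite e d ψ c h1 b1 hfree
    | univ =>
      right
      simp
    | compl _ ih =>
      rw [compl_compl]
      exact ih.symm
    | inter _ _ ih1 ih2 =>
      rcases ih1 with h1 | h1
      · left
        exact h1.subset (fun x hx => ⟨hx.1.1, hx.2⟩)
      · rcases ih2 with h2 | h2
        · left
          exact h2.subset (fun x hx => ⟨hx.1.2, hx.2⟩)
        · right
          refine (h1.union h2).subset ?_
          rintro x ⟨hx1, hx2⟩
          rw [Set.compl_inter] at hx1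
          rcases hx1 with hx1 | hx1
          · exact Or.inl ⟨hx1, hx2⟩
          · exact Or.inr ⟨hx1, hx2⟩
  have hE' : EE b2 b1 := (arc_facts e ![b1, b2, b1]).2.1 hE
  have i1 : {x : N | CC b1 x b2}.Infinite := infinite_of_arcs e ![b1, b2] hne hE
  have i2 : {x : N | CC b2 x b1}.Infinite :=
    infinite_of_arcs e ![b2, b1] (fun hh => hne hh.symm) hE'
  rcases key _ h with h1 | h1
  · refine i1 (h1.subset ?_)
    intro x hx
    refine ⟨(mem_arc d _ x).2 hx, ?_⟩
    exact (arc_facts e ![b1, b2, x]).1 hx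
  · refine i2 (h1.subset ?_)
    intro x hx
    refine ⟨fun hh => ?_, ?_⟩
    · exact (arc_facts e ![b1, b2, x]).2.2.2 hx ((mem_arc d _ x).1 hh)
    · exact (arc_facts e ![b1, b2, x]).2.2.1 hE hx

/-- There is a complete theory `T` with infinite models such that every model `N` of `T` (in
particular the monster model) has low VC-density and is dp-minimal, but is not weakly
VC-minimal, not even over any finite tuple `d` of named parameters. -/
theorem result : ∃ (L : FirstOrder.Language.{0, 0}) (T : L.Theory), T.IsComplete ∧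
    ∀ (N : Type u) [L.Structure N] [N ⊨ T] [Nonempty N],
      Infinite N ∧ LowVCDensity L N ∧ DpMinimal L N ∧
        ∀ (k : ℕ) (d : Fin k → N), ¬ WeaklyVCMinimalOver L N d := by
  refine ⟨Lc, Lc.completeTheory M0, completeTheory.isComplete Lc M0, ?_⟩
  intro N _ _ _
  have e : M0 ≅[Lc] N := equiv_of_models Lc
  exact ⟨(ElementarilyEquivalent.infinite_iff e).1 inferInstance, lowVCDensity e,
    dpMinimal_of_lowVCDensity (lowVCDensity e), fun k d => not_weaklyVCMinimalOver e d⟩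

end Final

end Pool.Agent.Results.MP_670fc8_lc.LowVCNotWeaklyVCMinimal
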